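import Pool.Agent.WR3.StmtsB

/-!
WR3, row TER: few integers below `y^(6/5)` stay above `y`.
-/

namespace Pool.Agent.WR3.H3

open Pool.Agent.WIR Pool.Agent.WR2 Pool.Agent.WR3
open scoped BigOperators

/-- the iterate of a number below `2^(t+1)` -/
theorem iter_le (h1 : UpbStmt) (t b : ℕ) (hb : b ≤ 2 ^ (t + 1)) :
    T^[t] b ≤ 3 ^ (od t b + 1) := by
  have h := h1.1 t b
  have h2 : 3 ^ od t b * (b + 2 ^ t) ≤ 2 ^ t * 3 ^ (od t b + 1) := by
    calc 3 ^ od t b * (b + 2 ^ t) ≤ 3 ^ od t b * (2 ^ (t + 1) + 2 ^ t) :=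
          Nat.mul_le_mul_left _ (Nat.add_le_add_right hb _)
      _ = 2 ^ t * 3 ^ (od t b + 1) := by ring
  exact Nat.le_of_mul_le_mul_left (h.trans h2) (by positivity)

/-- the number of the `b` below `2^(t+1)` with `l` odd steps -/
theorem count_le (h1 : UpbStmt) (h2 : SmuStmt) (h4 : PreStmt) (t l : ℕ) :
    ((Finset.Icc 1 (2 ^ (t + 1))).filter (fun b => od t b = l)).card ≤ 3 * t.choose l := by
  classical
  have hsub : (Finset.Icc 1 (2 ^ (t + 1))).filter (fun b => od t b = l)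
      ⊆ (Finset.Icc 1 (3 ^ (l + 1))).biUnion (fun c => Pre t l c) := by
    intro b hb
    rw [Finset.mem_filter, Finset.mem_Icc] at hb
    obtain ⟨⟨hb1, hb2⟩, hl⟩ := hb
    rw [Finset.mem_biUnion]
    refine ⟨T^[t] b, ?_, ?_⟩
    · rw [Finset.mem_Icc]
      constructor
      · have h := h1.2 t b
        rcases Nat.eq_zero_or_pos (T^[t] b) with h0 | h0
        · rw [h0] at h
          simp at h
          omega
        · exact h0
      · rw [← hl]
        exact iter_le h1 t b hb2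
    · rw [h4.1]
      exact ⟨hb1, rfl, hl⟩
  calc ((Finset.Icc 1 (2 ^ (t + 1))).filter (fun b => od t b = l)).card
      ≤ ((Finset.Icc 1 (3 ^ (l + 1))).biUnion (fun c => Pre t l c)).card := Finset.card_le_card hsub
    _ ≤ ∑ c ∈ Finset.Icc 1 (3 ^ (l + 1)), (Pre t l c).card := Finset.card_biUnion_le
    _ = ∑ c ∈ Finset.Icc 1 (3 ^ (l + 1)), uT t l c := by
        refine Finset.sum_congr rfl fun c _ => ?_
        rw [h4.2.2.1]
    _ = 3 * t.choose l := h2.2.2.1 t l

/-- many odd steps -/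
theorem many_odd (h1 : UpbStmt) (t b y : ℕ) (ht : 200 ≤ t) (hb : b ≤ 2 ^ (t + 1))
    (hy : 2 ^ (5 * t) ≤ (y + 1) ^ 6) (hyb : y < T^[t] b) : 51 * t ≤ 100 * od t b := by
  by_contra hcon
  push Not at hcon
  set l := od t b with hl
  have h3 : y + 1 ≤ 3 ^ (l + 1) := (Nat.succ_le_of_lt hyb).trans (iter_le h1 t b hb)
  have h4 : 2 ^ (5 * t) ≤ 3 ^ (6 * (l + 1)) := by
    calc 2 ^ (5 * t) ≤ (y + 1) ^ 6 := hy
      _ ≤ (3 ^ (l + 1)) ^ 6 := Nat.pow_le_pow_left h3 6
      _ = 3 ^ (6 * (l + 1)) := by rw [← pow_mul]; ring_nf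
  have h5 : 2 ^ (500 * t) ≤ 3 ^ (309 * t) := by
    calc 2 ^ (500 * t) = (2 ^ (5 * t)) ^ 100 := by rw [← pow_mul]; congr 1; ring
      _ ≤ (3 ^ (6 * (l + 1))) ^ 100 := Nat.pow_le_pow_left h4 100
      _ = 3 ^ (600 * (l + 1)) := by rw [← pow_mul]; congr 1; ring
      _ ≤ 3 ^ (309 * t) := Nat.pow_le_pow_right (by norm_num) (by omega)
  have h6 : 3 ^ (309 * t) ≤ 2 ^ (492 * t) := by
    calc 3 ^ (309 * t) = (3 ^ 103) ^ (3 * t) := by rw [← pow_mul]; congr 1; ring
      _ ≤ (2 ^ 164) ^ (3 * t) := Nat.pow_le_pow_left (by norm_num) _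
      _ = 2 ^ (492 * t) := by rw [← pow_mul]; congr 1; ring
  have h7 : 2 ^ (492 * t) < 2 ^ (500 * t) := Nat.pow_lt_pow_right (by norm_num) (by omega)
  omega

/-- the exponential beats the powers -/
theorem exp_pow (p t : ℕ) :
    Real.exp (-((t : ℝ) / 5000)) * ((t : ℝ) + 1) ^ p ≤ 3 * (5000 ^ p * (p.factorial : ℝ)) := by
  have h0 : (0 : ℝ) ≤ ((t : ℝ) + 1) / 5000 := by positivity
  have h1 := Real.pow_div_factorial_le_exp (((t : ℝ) + 1) / 5000) h0 p
  have hf : (0 : ℝ) < (p.factorial : ℝ) := by positivity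
  rw [div_pow, div_div, div_le_iff₀ (by positivity)] at h1
  have h2 : Real.exp (((t : ℝ) + 1) / 5000) = Real.exp ((t : ℝ) / 5000) * Real.exp (1 / 5000) := by
    rw [← Real.exp_add]
    congr 1
    ring
  have h3 : Real.exp (1 / 5000) ≤ 3 := by
    have := Real.exp_one_lt_d9
    have h : Real.exp (1 / 5000) ≤ Real.exp 1 := Real.exp_le_exp.mpr (by norm_num)
    linarith
  have h4 : Real.exp (-((t : ℝ) / 5000)) * Real.exp ((t : ℝ) / 5000) = 1 := by
    rw [← Real.exp_add]
    simp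
  calc Real.exp (-((t : ℝ) / 5000)) * ((t : ℝ) + 1) ^ p
      ≤ Real.exp (-((t : ℝ) / 5000)) *
        (Real.exp (((t : ℝ) + 1) / 5000) * (5000 ^ p * (p.factorial : ℝ))) :=
        mul_le_mul_of_nonneg_left h1 (Real.exp_pos _).le
    _ = (Real.exp (-((t : ℝ) / 5000)) * Real.exp ((t : ℝ) / 5000)) *
        (Real.exp (1 / 5000) * (5000 ^ p * (p.factorial : ℝ))) := by rw [h2]; ring
    _ = Real.exp (1 / 5000) * (5000 ^ p * (p.factorial : ℝ)) := by rw [h4, one_mul]
    _ ≤ 3 * (5000 ^ p * (p.factorial : ℝ)) := mul_le_mul_of_nonneg_right h3 (by positivity)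

/-- **Row TER**. -/
theorem ter (h1 : UpbStmt) (h2 : SmuStmt) (_h3 : PrdStmt) (h4 : Pool.Agent.WR2.PreStmt)
    (h5 : Pool.Agent.WIR.HoeStmt) : TerStmt := by
  classical
  intro p
  refine ⟨200 ^ p + 9 * (5000 ^ p * (p.factorial : ℝ)), by positivity, ?_⟩
  intro y x hy hx hxy
  have hlogy : 0 < Real.log y := Real.log_pos (by exact_mod_cast hy)
  have hCpos : (0 : ℝ) ≤ 200 ^ p + 9 * (5000 ^ p * (p.factorial : ℝ)) := by positivity
  rcases le_or_gt x (y : ℝ) with hle | hlt
  · -- nothing is counted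
    have hN : NS {b | ∀ j, y < T^[j] b} x = 0 := by
      unfold NS
      rw [Nat.cast_eq_zero, Finset.card_eq_zero, Finset.filter_eq_empty_iff]
      intro b hb hbS
      rw [Finset.mem_Icc] at hb
      have h0 : y < b := hbS 0
      have h1' : ⌊x⌋₊ ≤ y := by
        have := Nat.floor_le_floor hle
        simpa using this
      omega
    rw [hN]
    positivity
  · -- the time
    have hx0 : (0 : ℝ) < x := by linarith
    obtain ⟨t, ht1, ht2⟩ : ∃ t : ℕ, 2 ^ t ≤ ⌊x⌋₊ ∧ ⌊x⌋₊ < 2 ^ (t + 1) := by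
      have hf : ⌊x⌋₊ ≠ 0 := by
        rw [Ne, Nat.floor_eq_zero]
        linarith
      exact ⟨Nat.log 2 ⌊x⌋₊, Nat.pow_log_le_self 2 hf, Nat.lt_pow_succ_log_self (by norm_num) _⟩
    have hxt : (2 : ℝ) ^ t ≤ x := by
      have h := Nat.floor_le hx0.le
      have h' : ((2 ^ t : ℕ) : ℝ) ≤ (⌊x⌋₊ : ℝ) := by exact_mod_cast ht1
      push_cast at h'
      linarith
    have hxt2 : x < 2 ^ (t + 1) := by
      have h := Nat.lt_floor_add_one x
      have h' : ((⌊x⌋₊ + 1 : ℕ) : ℝ) ≤ ((2 ^ (t + 1) : ℕ) : ℝ) := by exact_mod_cast ht2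
      push_cast at h'
      linarith
    have hlogyt : Real.log y ≤ (t : ℝ) + 1 := by
      have h : Real.log y ≤ Real.log x :=
        Real.log_le_log (by exact_mod_cast (by omega : 0 < y)) hlt.le
      have h' : Real.log x ≤ Real.log ((2 : ℝ) ^ (t + 1)) := Real.log_le_log hx0 hxt2.le
      rw [Real.log_pow] at h'
      have hl2 : Real.log 2 ≤ 1 := by
        have := Real.log_two_lt_d9
        linarith
      have h'' : ((t + 1 : ℕ) : ℝ) * Real.log 2 ≤ ((t + 1 : ℕ) : ℝ) * 1 :=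
        mul_le_mul_of_nonneg_left hl2 (by positivity)
      push_cast at h' h''
      linarith
    have hpow : Real.log y ^ p ≤ ((t : ℝ) + 1) ^ p := pow_le_pow_left₀ hlogy.le hlogyt p
    have hlp : 0 < Real.log y ^ p := pow_pos hlogy p
    rcases lt_or_ge t 200 with hsmall | hbig
    · -- small `x`
      have hN : NS {b | ∀ j, y < T^[j] b} x ≤ x := by
        unfold NS
        have h : ((Finset.Icc 1 ⌊x⌋₊).filter (fun b => b ∈ {b | ∀ j, y < T^[j] b})).card
            ≤ (Finset.Icc 1 ⌊x⌋₊).card := Finset.card_filter_le _ _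
        rw [Nat.card_Icc, Nat.add_sub_cancel] at h
        have h' : (((Finset.Icc 1 ⌊x⌋₊).filter (fun b => b ∈ {b | ∀ j, y < T^[j] b})).card : ℝ)
            ≤ (⌊x⌋₊ : ℝ) := by exact_mod_cast h
        exact h'.trans (Nat.floor_le hx0.le)
      rw [le_div_iff₀ hlp]
      have hb : Real.log y ^ p ≤ 200 ^ p := by
        refine pow_le_pow_left₀ hlogy.le (hlogyt.trans ?_) p
        have : (t : ℝ) + 1 ≤ ((200 : ℕ) : ℝ) := by exact_mod_cast hsmall
        simpa using this
      calc NS {b | ∀ j, y < T^[j] b} x * Real.log y ^ p ≤ x * 200 ^ p :=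
            mul_le_mul hN hb hlp.le hx0.le
        _ ≤ (200 ^ p + 9 * (5000 ^ p * (p.factorial : ℝ))) * x := by
            have h9 : (0 : ℝ) ≤ 9 * (5000 ^ p * (p.factorial : ℝ)) * x := by positivity
            nlinarith
    · -- large `x`
      have hy5 : 2 ^ (5 * t) ≤ (y + 1) ^ 6 := by
        have h : ((2 : ℝ) ^ t) ^ 5 ≤ ((y : ℝ) + 1) ^ 6 :=
          (pow_le_pow_left₀ (by positivity) hxt 5).trans hxy
        have h' : ((2 ^ (5 * t) : ℕ) : ℝ) ≤ (((y + 1) ^ 6 : ℕ) : ℝ) := by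
          push_cast
          rw [← pow_mul, mul_comm] at h
          exact h
        exact_mod_cast h'
      set L : Finset ℕ := (Finset.range (t + 1)).filter
        (fun r : ℕ => (t : ℝ) / 50 ≤ 2 * (r : ℝ) - t) with hL
      have hsub : (Finset.Icc 1 ⌊x⌋₊).filter (fun b => b ∈ {b | ∀ j, y < T^[j] b})
          ⊆ L.biUnion (fun l => (Finset.Icc 1 (2 ^ (t + 1))).filter (fun b => od t b = l)) := by
        intro b hb
        rw [Finset.mem_filter, Finset.mem_Icc] at hb
        obtain ⟨⟨hb1, hb2⟩, hbS⟩ := hb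
        have hb3 : b ≤ 2 ^ (t + 1) := hb2.trans ht2.le
        have hbt : y < T^[t] b := hbS t
        have hod := many_odd h1 t b y hbig hb3 hy5 hbt
        rw [Finset.mem_biUnion]
        refine ⟨od t b, ?_, ?_⟩
        · rw [hL, Finset.mem_filter, Finset.mem_range]
          constructor
          · have : od t b ≤ t := by
              unfold od
              calc _ ≤ (Finset.range t).card := Finset.card_filter_le _ _
                _ = t := Finset.card_range t
            omega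
          · have h' : ((51 * t : ℕ) : ℝ) ≤ ((100 * od t b : ℕ) : ℝ) := by exact_mod_cast hod
            push_cast at h'
            linarith
        · rw [Finset.mem_filter, Finset.mem_Icc]
          exact ⟨⟨hb1, hb3⟩, rfl⟩
      have hcard : ((Finset.Icc 1 ⌊x⌋₊).filter (fun b => b ∈ {b | ∀ j, y < T^[j] b})).card
          ≤ ∑ l ∈ L, 3 * t.choose l := by
        calc _ ≤ (L.biUnion (fun l =>
              (Finset.Icc 1 (2 ^ (t + 1))).filter (fun b => od t b = l))).card :=
              Finset.card_le_card hsub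
          _ ≤ ∑ l ∈ L, ((Finset.Icc 1 (2 ^ (t + 1))).filter (fun b => od t b = l)).card :=
              Finset.card_biUnion_le
          _ ≤ ∑ l ∈ L, 3 * t.choose l := Finset.sum_le_sum fun l _ => count_le h1 h2 h4 t l
      have htpos : (0 : ℝ) < t := by exact_mod_cast (by omega : 0 < t)
      have hhoe := (h5 t ((t : ℝ) / 50) (by omega) (by positivity)).1
      have hexp : -(((t : ℝ) / 50) ^ 2 / (2 * t)) = -((t : ℝ) / 5000) := by
        field_simp
        norm_num
      rw [hexp] at hhoe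
      have hN : NS {b | ∀ j, y < T^[j] b} x ≤ 3 * (2 ^ t * Real.exp (-((t : ℝ) / 5000))) := by
        unfold NS
        have h' : (((Finset.Icc 1 ⌊x⌋₊).filter (fun b => b ∈ {b | ∀ j, y < T^[j] b})).card : ℝ)
            ≤ ((∑ l ∈ L, 3 * t.choose l : ℕ) : ℝ) := by exact_mod_cast hcard
        refine h'.trans ?_
        push_cast
        rw [← Finset.mul_sum]
        exact mul_le_mul_of_nonneg_left hhoe (by norm_num)
      have he := exp_pow p t
      rw [le_div_iff₀ hlp]
      calc NS {b | ∀ j, y < T^[j] b} x * Real.log y ^ p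
          ≤ (3 * (2 ^ t * Real.exp (-((t : ℝ) / 5000)))) * ((t : ℝ) + 1) ^ p :=
            mul_le_mul hN hpow hlp.le (by positivity)
        _ = 3 * 2 ^ t * (Real.exp (-((t : ℝ) / 5000)) * ((t : ℝ) + 1) ^ p) := by ring
        _ ≤ 3 * 2 ^ t * (3 * (5000 ^ p * (p.factorial : ℝ))) :=
            mul_le_mul_of_nonneg_left he (by positivity)
        _ = 9 * (5000 ^ p * (p.factorial : ℝ)) * 2 ^ t := by ring
        _ ≤ 9 * (5000 ^ p * (p.factorial : ℝ)) * x :=
            mul_le_mul_of_nonneg_left hxt (by positivity)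
        _ ≤ (200 ^ p + 9 * (5000 ^ p * (p.factorial : ℝ))) * x := by
            have h200 : (0 : ℝ) ≤ 200 ^ p * x := by positivity
            nlinarith

end Pool.Agent.WR3.H3
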